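import Pool.Agent.helper50.MA.Spec1

set_option autoImplicit false

open MeasureTheory Set Filter Topology Complex
open scoped ContDiff Real

namespace MAP

noncomputable section

private lemma two_le_inf : (2 : WithTop ℕ∞) ≤ ∞ := by norm_cast

private lemma fderiv_R_of_C {F : C2 → C2} {y : C2} (h : DifferentiableAt ℂ F y) :
    fderiv ℝ F y = (fderiv ℂ F y).restrictScalars ℝ :=
  (h.hasFDerivAt.restrictScalars ℝ).fderiv

/-- chain rule for the second derivative -/
private lemma D2_comp {U V : Set C2} {F : C2 → C2} {u : C2 → ℝ} (hU : IsOpen U) (hV : IsOpen V)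
    (hF : ContDiffOn ℂ 2 F V) (hm : MapsTo F V U) (hu : ContDiffOn ℝ 2 u U) {x : C2} (hx : x ∈ V) (ξ η : C2) :
    D2 (fun y => u (F y)) x ξ η =
      D2 u (F x) (fderiv ℂ F x ξ) (fderiv ℂ F x η) + fderiv ℝ u (F x) (fderiv ℂ (fderiv ℂ F) x ξ η) := by
  have hFd : ∀ y ∈ V, DifferentiableAt ℂ F y := fun y hy =>
    (hF.contDiffAt (hV.mem_nhds hy)).differentiableAt (by norm_num)
  have hud : ∀ y ∈ U, DifferentiableAt ℝ u y := fun y hy =>
    (hu.contDiffAt (hU.mem_nhds hy)).differentiableAt (by norm_num)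
  -- first derivative
  have h1 : ∀ y ∈ V, fderiv ℝ (fun y => u (F y)) y = (fderiv ℝ u (F y)).comp (fderiv ℝ F y) := by
    intro y hy
    exact fderiv_comp y (hud _ (hm hy)) ((hFd y hy).restrictScalars ℝ)
  -- second derivatives
  have hFc : ContDiffAt ℂ 2 F x := hF.contDiffAt (hV.mem_nhds hx)
  have huc : ContDiffAt ℝ 2 u (F x) := hu.contDiffAt (hU.mem_nhds (hm hx))
  have hG : DifferentiableAt ℂ (fderiv ℂ F) x := by
    have := hFc.fderiv_right (m := 1) (by norm_num)
    exact this.differentiableAt (by norm_num)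
  have hB : DifferentiableAt ℝ (fderiv ℝ u) (F x) := by
    have := huc.fderiv_right (m := 1) (by norm_num)
    exact this.differentiableAt (by norm_num)
  have huF : DifferentiableAt ℝ (fderiv ℝ (fun y => u (F y))) x := by
    have hF2 : ContDiffAt ℝ 2 F x := hFc.restrict_scalars ℝ
    have h2 : ContDiffAt ℝ 2 (fun y => u (F y)) x := huc.comp x hF2
    have := h2.fderiv_right (m := 1) (by norm_num)
    exact this.differentiableAt (by norm_num)
  have e1 : D2 (fun y => u (F y)) x ξ η = fderiv ℝ (fun y => fderiv ℝ (fun y => u (F y)) y η) x ξ := by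
    unfold D2
    rw [fderiv_clm_apply huF (differentiableAt_const η)]
    simp
  have e2 : (fun y => fderiv ℝ (fun y => u (F y)) y η) =ᶠ[𝓝 x] fun y => fderiv ℝ u (F y) (fderiv ℂ F y η) := by
    filter_upwards [hV.mem_nhds hx] with y hy
    rw [h1 y hy, fderiv_R_of_C (hFd y hy)]
    rfl
  rw [e1, e2.fderiv_eq]
  -- derivative of `B ∘ F`
  have hFx : HasFDerivAt F ((fderiv ℂ F x).restrictScalars ℝ) x := (hFd x hx).hasFDerivAt.restrictScalars ℝ
  have hBF : HasFDerivAt (fun y => fderiv ℝ u (F y))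
      ((fderiv ℝ (fderiv ℝ u) (F x)).comp ((fderiv ℂ F x).restrictScalars ℝ)) x :=
    hB.hasFDerivAt.comp x hFx
  have hGx : HasFDerivAt (fun y => fderiv ℂ F y η) (((fderiv ℂ (fderiv ℂ F) x).flip η).restrictScalars ℝ) x := by
    have h3 : HasFDerivAt (fun y => fderiv ℂ F y η) ((fderiv ℂ (fderiv ℂ F) x).flip η) x := by
      have := hG.hasFDerivAt.clm_apply (hasFDerivAt_const η x)
      refine this.congr_fderiv ?_
      ext <;> simp
    exact h3.restrictScalars ℝ
  have h4 := hBF.clm_apply hGx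
  rw [h4.fderiv]
  simp [D2, add_comm]

theorem A6_part1 (U V : Set C2) (F : C2 → C2) (u : C2 → ℝ) (hU : IsOpen U) (hV : IsOpen V)
    (hF : ContDiffOn ℂ 2 F V) (hm : MapsTo F V U) (hu : ContDiffOn ℝ 2 u U) (x : C2) (hx : x ∈ V) (ξ : C2) :
    lap (fun y => u (F y)) x ξ = lap u (F x) (fderiv ℂ F x ξ) := by
  unfold lap
  rw [D2_comp hU hV hF hm hu hx, D2_comp hU hV hF hm hu hx]
  have h1 : fderiv ℂ F x (I • ξ) = I • fderiv ℂ F x ξ := by simp
  have h2 : fderiv ℂ (fderiv ℂ F) x (I • ξ) (I • ξ) = - fderiv ℂ (fderiv ℂ F) x ξ ξ := by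
    have h0 : fderiv ℂ (fderiv ℂ F) x (I • ξ) = I • fderiv ℂ (fderiv ℂ F) x ξ := map_smul _ _ _
    have h1 : (I • fderiv ℂ (fderiv ℂ F) x ξ) (I • ξ) = I • (fderiv ℂ (fderiv ℂ F) x ξ (I • ξ)) := rfl
    rw [h0, h1, map_smul, smul_smul, I_mul_I, neg_one_smul]
  rw [h1, h2, map_neg]
  ring

private lemma PshOn.mono' {U V : Set C2} {u : C2 → ℝ} (h : PshOn U u) (hV : V ⊆ U) : PshOn V u :=
  ⟨h.1.mono hV, fun x ξ hd => h.2 x ξ (hd.trans hV)⟩

theorem A6 (h2 : A2_stmt) (h3 : A3_stmt) (h4 : A4_stmt) (h5 : A5_stmt) : A6_stmt := by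
  refine ⟨A6_part1, ?_⟩
  intro U V F u hU hV hF hm hu
  have hFc : ContinuousOn F V := hF.continuousOn
  have hcont : ContinuousOn (fun y => u (F y)) V := hu.1.comp hFc hm
  refine h4 V _ hV hcont ?_
  intro x hx
  -- compact neighbourhood of `F x` in `U`
  obtain ⟨K, hK, hKx, hKU⟩ := exists_compact_subset hU (hm hx)
  -- the open set `W`
  set W : Set C2 := V ∩ F ⁻¹' (interior K) with hW
  have hWo : IsOpen W := hFc.isOpen_inter_preimage hV isOpen_interior
  have hxW : x ∈ W := ⟨hx, hKx⟩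
  have hWV : W ⊆ V := inter_subset_left
  have hmW : MapsTo F W (interior K) := fun y hy => hy.2
  have key : PshOn W (fun y => u (F y)) := by
    choose w Vn hw hVn hKV hVU hpsh hclose using fun n : ℕ => h5 U K u (1 / ((n : ℝ) + 1)) hU hu hK hKU (by positivity)
    refine h2.2 W (fun n y => w n (F y)) (fun y => u (F y)) hWo ?_ ?_
    · intro n
      have hp : PshOn (interior K) (w n) := (hpsh n).mono' (interior_subset.trans (hKV n))
      have hc : ContDiffOn ℝ 2 (w n) (interior K) := ((hw n).of_le two_le_inf).contDiffOn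
      have hlap := (h3.2 (interior K) (w n) isOpen_interior hc).1 hp
      have hFW : ContDiffOn ℂ 2 F W := hF.mono hWV
      have hcF : ContDiffOn ℝ 2 (fun y => w n (F y)) W := by
        have h6 : ContDiff ℝ 2 (w n) := (hw n).of_le two_le_inf
        exact h6.comp_contDiffOn (hFW.restrict_scalars ℝ)
      refine (h3.2 W (fun y => w n (F y)) hWo hcF).2 ?_
      intro y hy ξ
      rw [A6_part1 (interior K) W F (w n) isOpen_interior hWo hFW hmW hc y hy ξ]
      exact hlap _ (hmW hy) _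
    · intro C hC _
      rw [Metric.tendstoUniformlyOn_iff]
      intro ε hε
      obtain ⟨N, hN⟩ := exists_nat_gt (1 / ε)
      filter_upwards [eventually_ge_atTop N] with n hn y hy
      rw [Real.dist_eq, abs_sub_comm]
      have h7 := hclose n (F y) (hKV n (interior_subset (hmW (hC hy))))
      refine lt_of_le_of_lt h7 ?_
      have h8 : (N : ℝ) ≤ n := by exact_mod_cast hn
      have h9 : 1 / ε < (n : ℝ) + 1 := by linarith
      rw [div_lt_comm₀ (by positivity) hε]
      exact h9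
  obtain ⟨r, hr, hball⟩ := Metric.isOpen_iff.1 hWo x hxW
  refine ⟨r, hr, fun ξ hξ => key.2 x ξ ?_⟩
  rintro y ⟨ζ, hζ, rfl⟩
  apply hball
  rw [Metric.mem_ball, dist_eq_norm, add_sub_cancel_left, norm_smul]
  calc ‖ζ‖ * ‖ξ‖ ≤ 1 * ‖ξ‖ := by gcongr
    _ < r := by simpa using hξ

end

end MAP
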