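import Pool.Agent.helper50.MA.Spec2

set_option autoImplicit false

open MeasureTheory Set Filter Topology Complex
open scoped ContDiff Real

namespace MAP

noncomputable section

namespace H1aux

/-- the volume of `ℂ × ℂ` is a Haar measure -/
lemma haarC2 : (volume : Measure C2).IsAddHaarMeasure :=
  inferInstanceAs ((volume : Measure ℂ).prod (volume : Measure ℂ)).IsAddHaarMeasure

attribute [local instance] haarC2

/-- complex rotations preserve the volume of `ℂ × ℂ` -/
lemma mp_rot (θ : ℝ) : MeasurePreserving (fun ξ : C2 => cexp (θ * I) • ξ) volume volume := by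
  have h1 : MeasurePreserving (rotation (Circle.exp θ)) (volume : Measure ℂ) volume :=
    (rotation (Circle.exp θ)).measurePreserving
  have h2 := h1.prod h1
  have h3 : (Prod.map (rotation (Circle.exp θ)) (rotation (Circle.exp θ))) = fun ξ : C2 => cexp (θ * I) • ξ := by
    funext ξ
    ext <;> simp [rotation_apply, Circle.coe_exp]
  rw [← h3]
  exact h2

lemma norm_rot (θ : ℝ) (ξ : C2) : ‖cexp (θ * I) • ξ‖ = ‖ξ‖ := by
  rw [norm_smul, Complex.norm_exp_ofReal_mul_I, one_mul]

lemma set_rot (θ : ℝ) (R : ℝ) (g : C2 → ℝ) :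
    ∫ ξ in Metric.ball (0 : C2) R, g (cexp (θ * I) • ξ) = ∫ ξ in Metric.ball (0 : C2) R, g ξ := by
  have hemb : MeasurableEmbedding (fun ξ : C2 => cexp (θ * I) • ξ) :=
    (Homeomorph.smulOfNeZero (cexp (θ * I)) (Complex.exp_ne_zero _)).measurableEmbedding
  have h := (mp_rot θ).setIntegral_preimage_emb hemb g (Metric.ball (0 : C2) R)
  have hpre : (fun ξ : C2 => cexp (θ * I) • ξ) ⁻¹' Metric.ball (0 : C2) R = Metric.ball (0 : C2) R := by
    ext ξ
    simp only [mem_preimage, mem_ball_zero_iff, norm_rot]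
  rw [hpre] at h
  exact h

lemma disc_sub {y ξ : C2} {R : ℝ} (h : ‖ξ‖ ≤ R) : disc y ξ ⊆ Metric.closedBall y R := by
  rintro x ⟨ζ, hζ, rfl⟩
  rw [Metric.mem_closedBall, dist_eq_norm, add_sub_cancel_left, norm_smul]
  calc ‖ζ‖ * ‖ξ‖ ≤ 1 * ‖ξ‖ := by gcongr
    _ ≤ R := by simpa using h

/-- sub-mean value property over balls (of the sup norm) -/
lemma ball_submean {U : Set C2} {u : C2 → ℝ} (hu : PshOn U u) {y : C2} {R : ℝ}
    (hb : Metric.closedBall y R ⊆ U) :
    volume.real (Metric.ball (0 : C2) R) * u y ≤ ∫ x in Metric.ball y R, u x := by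
  set B : Set C2 := Metric.ball (0 : C2) R with hB
  set g : C2 → ℝ → ℝ := fun ξ θ => u (y + cexp (θ * I) • ξ) with hg
  have hcont : ContinuousOn (Function.uncurry g) (Metric.closedBall (0 : C2) R ×ˢ Icc (0 : ℝ) (2 * π)) := by
    refine hu.1.comp (by fun_prop) ?_
    rintro ⟨ξ, θ⟩ ⟨hξ, -⟩
    apply hb
    rw [Metric.mem_closedBall, dist_eq_norm, add_sub_cancel_left, norm_rot]
    simpa using hξ
  have hcomp : IsCompact (Metric.closedBall (0 : C2) R ×ˢ Icc (0 : ℝ) (2 * π)) :=
    (isCompact_closedBall _ _).prod isCompact_Icc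
  have hint : Integrable (Function.uncurry g) ((volume.restrict B).prod (volume.restrict (Ioc (0 : ℝ) (2 * π)))) := by
    rw [Measure.prod_restrict]
    have h1 : IntegrableOn (Function.uncurry g) (Metric.closedBall (0 : C2) R ×ˢ Icc (0 : ℝ) (2 * π))
        ((volume : Measure C2).prod (volume : Measure ℝ)) := hcont.integrableOn_compact hcomp
    exact h1.mono_set (prod_mono Metric.ball_subset_closedBall Ioc_subset_Icc_self)
  have hmean : ∀ ξ, mean u y ξ = (2 * π)⁻¹ * ∫ θ in Ioc (0 : ℝ) (2 * π), g ξ θ := by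
    intro ξ
    unfold mean
    rw [intervalIntegral.integral_of_le (by positivity)]
  have hmint : IntegrableOn (fun ξ => mean u y ξ) B := by
    have := hint.integral_prod_left.const_mul ((2 * π)⁻¹)
    refine this.congr (Eventually.of_forall fun ξ => ?_)
    simp only [hmean]
    rfl
  have hJ : ∫ ξ in B, mean u y ξ = ∫ ξ in B, u (y + ξ) := by
    simp only [hmean]
    rw [integral_const_mul, integral_integral_swap hint]
    have : ∀ θ : ℝ, ∫ ξ in B, g ξ θ = ∫ ξ in B, u (y + ξ) := fun θ => set_rot θ R (fun ξ => u (y + ξ))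
    simp only [this]
    rw [integral_const]
    simp only [MeasurableSet.univ, measureReal_restrict_apply, univ_inter, Real.volume_real_Ioc, smul_eq_mul]
    have h2π : (0 : ℝ) ≤ 2 * π - 0 := by rw [sub_zero]; positivity
    rw [max_eq_left h2π, sub_zero]
    field_simp
  have htr : ∫ ξ in B, u (y + ξ) = ∫ x in Metric.ball y R, u x := by
    have h1 : MeasurePreserving (fun ξ : C2 => y + ξ) volume volume := measurePreserving_add_left volume y
    have h2 := h1.setIntegral_preimage_emb (Homeomorph.addLeft y).measurableEmbedding u (Metric.ball y R)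
    have h3 : (fun ξ : C2 => y + ξ) ⁻¹' Metric.ball y R = B := by
      ext ξ
      simp [hB, dist_eq_norm]
    rw [h3] at h2
    exact h2
  rw [← htr, ← hJ]
  have hfin : volume B ≠ ⊤ := measure_ball_lt_top.ne
  have hc : ∫ _ in B, u y = volume.real B * u y := by
    rw [setIntegral_const, smul_eq_mul]
  rw [← hc]
  refine setIntegral_mono_on (integrableOn_const hfin) hmint measurableSet_ball ?_
  intro ξ hξ
  refine hu.2 y ξ ((disc_sub ?_).trans hb)
  have : ‖ξ‖ < R := by simpa [hB] using hξ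
  exact this.le

lemma local_bound {U : Set C2} {ρ g : C2 → ℝ} (hg : ∀ x ∈ U, g x ≤ 0) (hgc : ContinuousOn g U)
    (hρ : ContinuousOn ρ U) (hu : PshOn U (fun x => ρ x + g x)) {a : C2} {r M : ℝ} (hr : 0 < r)
    (hb : Metric.closedBall a (3 * r) ⊆ U) (hM : ∀ x ∈ Metric.closedBall a (3 * r), |ρ x| ≤ M) {y : C2}
    (hy : y ∈ Metric.ball a r) {C : ℝ} (hC : -g y ≤ C) :
    ∫ x in Metric.ball a r, -g x ≤ volume.real (Metric.ball (0 : C2) (2 * r)) * (2 * M + C) := by
  have hyd : dist y a < r := hy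
  have s1 : Metric.ball a r ⊆ Metric.ball y (2 * r) := by
    intro x hx
    have h1 : dist x a < r := hx
    have h2 : dist x y ≤ dist x a + dist a y := dist_triangle _ _ _
    rw [dist_comm a y] at h2
    rw [Metric.mem_ball]; linarith
  have s2 : Metric.closedBall y (2 * r) ⊆ Metric.closedBall a (3 * r) := by
    intro x hx
    have h1 : dist x y ≤ 2 * r := hx
    have h2 : dist x a ≤ dist x y + dist y a := dist_triangle _ _ _
    rw [Metric.mem_closedBall]; linarith
  have s3 : Metric.closedBall y (2 * r) ⊆ U := s2.trans hb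
  have ig : IntegrableOn g (Metric.ball y (2 * r)) :=
    ((hgc.mono s3).integrableOn_compact (isCompact_closedBall _ _)).mono_set Metric.ball_subset_closedBall
  have iρ : IntegrableOn ρ (Metric.ball y (2 * r)) :=
    ((hρ.mono s3).integrableOn_compact (isCompact_closedBall _ _)).mono_set Metric.ball_subset_closedBall
  have hvol : (volume (Metric.ball y (2 * r))).toReal = volume.real (Metric.ball (0 : C2) (2 * r)) := by
    rw [Measure.real, Measure.addHaar_ball_center]
  have h1 : ∫ x in Metric.ball a r, -g x ≤ ∫ x in Metric.ball y (2 * r), -g x := by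
    refine setIntegral_mono_set ig.neg ?_ (LE.le.eventuallyLE s1)
    rw [Filter.EventuallyLE, ae_restrict_iff' measurableSet_ball]
    refine Eventually.of_forall fun x hx => ?_
    have := hg x (s3 (Metric.ball_subset_closedBall hx))
    simp only [Pi.zero_apply]; linarith
  have h2 := ball_submean hu s3
  have h3 : ∫ x in Metric.ball y (2 * r), (ρ x + g x) =
      (∫ x in Metric.ball y (2 * r), ρ x) + ∫ x in Metric.ball y (2 * r), g x := integral_add iρ ig
  have h4 : ∫ x in Metric.ball y (2 * r), ρ x ≤ M * volume.real (Metric.ball (0 : C2) (2 * r)) := by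
    have := setIntegral_mono_on iρ (integrableOn_const (C := M) (measure_ball_lt_top (μ := volume) (x := y) (r := 2 * r)).ne)
      measurableSet_ball (fun x hx => (le_abs_self _).trans (hM x (s2 (Metric.ball_subset_closedBall hx))))
    rw [setIntegral_const, smul_eq_mul, Measure.real, hvol] at this
    linarith
  have h5 : -M ≤ ρ y := by
    have : |ρ y| ≤ M := hM y (s2 (Metric.mem_closedBall_self (by positivity)))
    exact (abs_le.1 this).1
  have hv : 0 ≤ volume.real (Metric.ball (0 : C2) (2 * r)) := measureReal_nonneg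
  rw [h3] at h2
  rw [integral_neg] at h1 ⊢
  rw [integral_neg] at h1
  have h6 : volume.real (Metric.ball (0 : C2) (2 * r)) * (-M - C) ≤
      volume.real (Metric.ball (0 : C2) (2 * r)) * (ρ y + g y) := by
    apply mul_le_mul_of_nonneg_left _ hv
    linarith
  linarith

lemma cont_D2 {U : Set C2} {ρ : C2 → ℝ} (hU : IsOpen U) (hρ : ContDiffOn ℝ ∞ ρ U) (ξ η : C2) :
    ContinuousOn (fun y => D2 ρ y ξ η) U := by
  have h1 : ContDiffOn ℝ 1 (fderiv ℝ ρ) U := hρ.fderiv_of_isOpen hU (by norm_cast)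
  have h2 : ContDiffOn ℝ 0 (fderiv ℝ (fderiv ℝ ρ)) U := h1.fderiv_of_isOpen hU (by norm_num)
  have h3 := h2.continuousOn
  unfold D2
  exact (h3.clm_apply continuousOn_const).clm_apply continuousOn_const

lemma cont_dens {U : Set C2} {ρ : C2 → ℝ} (hU : IsOpen U) (hρ : ContDiffOn ℝ ∞ ρ U) :
    ContinuousOn (fun y => dens ρ ρ y) U := by
  unfold dens hA hC hB hB' lap
  have := cont_D2 hU hρ
  have h := fun ξ η => this ξ η
  refine ContinuousOn.div_const ?_ _
  exact (((((h _ _).add (h _ _)).mul ((h _ _).add (h _ _))).add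
    (((h _ _).add (h _ _)).mul ((h _ _).add (h _ _)))).sub
    (continuousOn_const.mul (((h _ _).add (h _ _)).mul ((h _ _).add (h _ _))))).sub
    (continuousOn_const.mul (((h _ _).sub (h _ _)).mul ((h _ _).sub (h _ _))))

end H1aux

open H1aux
attribute [local instance] haarC2

theorem H1 (h1 : S1_stmt) (h2 : S2_stmt) : H1_stmt := by
  intro X _ _ _ _ _ _ _ K f hfC hdec hneg hbd
  obtain ⟨x0, c, hx0⟩ := hbd
  -- the zero function
  have hpot0 : ∀ i, K.pot i (fun _ => (0 : ℝ)) = K.ρ i := by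
    intro i; funext y; simp [KS.pot]
  have hlap0 : ∀ (u : C2 → ℝ) (x : C2), lap u x 0 = 0 := by
    intro u x; simp [lap, D2]
  have h0PS : (fun _ : X => (0 : ℝ)) ∈ K.PS := by
    refine ⟨fun i => ?_, fun i y hy ξ => ?_⟩
    · exact contDiffOn_const
    · rw [hpot0]
      by_cases hξ : ξ = 0
      · subst hξ; rw [hlap0]
      · exact (K.ρ_pos i y hy ξ hξ).le
  obtain ⟨ν0, hν0⟩ := h1 X K _ h0PS _ h0PS
  set ν : Measure X := K.Ms (fun _ => 0) (fun _ => 0) with hνdef
  have hν : K.IsM (fun _ => 0) (fun _ => 0) ν := by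
    have hex : ∃ ν, K.IsM (fun _ => (0 : ℝ)) (fun _ => 0) ν := ⟨ν0, hν0⟩
    rw [hνdef]; unfold KS.Ms; rw [dif_pos hex]
    exact Classical.choose_spec hex
  have : IsFiniteMeasure ν := hν.1
  have h2' := (h2 X K _ h0PS _ h0PS ν hν).2
  -- charts
  have hTo : ∀ i, IsOpen (K.e i).target := fun i => (K.e i).open_target
  have hlc : ∀ i j, ContinuousOn (fun y => f j ((K.e i).symm y)) (K.e i).target := fun i j =>
    (hfC j).1.comp_continuousOn (K.e i).continuousOn_symm
  have hρc : ∀ i, ContinuousOn (K.ρ i) (K.e i).target := fun i => (K.ρ_smooth i).continuousOn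
  have hchart : ∀ x : X, ∃ i : Fin K.n, ∃ r : ℝ, 0 < r ∧ x ∈ (K.e i).source ∧
      Metric.closedBall (K.e i x) (3 * r) ⊆ (K.e i).target := by
    intro x
    obtain ⟨i, hi, -⟩ := K.cover x
    obtain ⟨ε, hε, hb⟩ := Metric.isOpen_iff.1 (hTo i) (K.e i x) ((K.e i).map_source hi)
    refine ⟨i, ε / 6, by positivity, hi, ?_⟩
    refine Subset.trans ?_ hb
    intro y hy
    have : dist y (K.e i x) ≤ 3 * (ε / 6) := hy
    rw [Metric.mem_ball]; linarith
  -- local integral bound
  have hloc : ∀ (i : Fin K.n) (a : C2) (r : ℝ), 0 < r → Metric.closedBall a (3 * r) ⊆ (K.e i).target → ∀ C : ℝ,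
      (∀ j, ∃ y ∈ Metric.ball a r, -f j ((K.e i).symm y) ≤ C) →
      ∃ B : ℝ, ∀ j, ∫ x in Metric.ball a r, -f j ((K.e i).symm x) ≤ B := by
    intro i a r hr hb C hC
    obtain ⟨M, hM⟩ := (isCompact_closedBall a (3 * r)).exists_bound_of_continuousOn ((hρc i).mono hb)
    refine ⟨volume.real (Metric.ball (0 : C2) (2 * r)) * (2 * M + C), fun j => ?_⟩
    obtain ⟨y, hy, hyC⟩ := hC j
    exact local_bound (U := (K.e i).target) (ρ := K.ρ i) (g := fun y => f j ((K.e i).symm y))
      (fun x _ => hneg j _) (hlc i j) (hρc i) ((hfC j).2 i) hr hb hM hy hyC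
  -- the good set
  set G : Set X := {x | ∀ W ∈ 𝓝 x, ∃ C : ℝ, ∀ j, ∃ y ∈ W, -f j y ≤ C} with hG
  have hW0 : ∀ (i : Fin K.n) (x : X) (r : ℝ), 0 < r → x ∈ (K.e i).source →
      (K.e i).source ∩ K.e i ⁻¹' Metric.ball (K.e i x) r ∈ 𝓝 x := by
    intro i x r hr hx
    exact inter_mem ((K.e i).open_source.mem_nhds hx)
      (((K.e i).continuousAt hx).preimage_mem_nhds (Metric.ball_mem_nhds _ hr))
  have hGint : ∀ x ∈ G, ∀ (i : Fin K.n) (r : ℝ), 0 < r → x ∈ (K.e i).source →
      Metric.closedBall (K.e i x) (3 * r) ⊆ (K.e i).target →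
      ∃ B : ℝ, ∀ j, ∫ y in Metric.ball (K.e i x) r, -f j ((K.e i).symm y) ≤ B := by
    intro x hx i r hr hxs hb
    obtain ⟨C, hC⟩ := hx _ (hW0 i x r hr hxs)
    refine hloc i (K.e i x) r hr hb C fun j => ?_
    obtain ⟨y, hy, hyC⟩ := hC j
    exact ⟨K.e i y, hy.2, by rwa [(K.e i).left_inv hy.1]⟩
  have hGopen : IsOpen G := by
    rw [isOpen_iff_mem_nhds]
    intro x hx
    obtain ⟨i, r, hr, hxs, hb⟩ := hchart x
    obtain ⟨B, hB⟩ := hGint x hx i r hr hxs hb
    refine mem_of_superset (hW0 i x r hr hxs) ?_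
    rintro x' ⟨hx's, hx'b⟩ W hW
    -- small ball around `e x'`
    have hx'T : K.e i x' ∈ (K.e i).target := (K.e i).map_source hx's
    have hsy : (K.e i).symm ⁻¹' W ∈ 𝓝 (K.e i x') := by
      have := (K.e i).symm.continuousAt (x := K.e i x') hx'T
      apply this.preimage_mem_nhds
      simpa [(K.e i).left_inv hx's] using hW
    have hnb : (K.e i).symm ⁻¹' W ∩ Metric.ball (K.e i x) r ∈ 𝓝 (K.e i x') :=
      inter_mem hsy (Metric.isOpen_ball.mem_nhds hx'b)
    obtain ⟨s, hs, hsub⟩ := Metric.mem_nhds_iff.1 hnb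
    have hs1 : Metric.ball (K.e i x') s ⊆ Metric.ball (K.e i x) r := hsub.trans inter_subset_right
    refine ⟨B / volume.real (Metric.ball (K.e i x') s), fun j => ?_⟩
    have hint : IntegrableOn (fun y => -f j ((K.e i).symm y)) (Metric.ball (K.e i x) r) := by
      have hb' : Metric.closedBall (K.e i x) r ⊆ (K.e i).target :=
        (Metric.closedBall_subset_closedBall (by linarith)).trans hb
      exact (((hlc i j).neg.mono hb').integrableOn_compact (isCompact_closedBall _ _)).mono_set
        Metric.ball_subset_closedBall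
    have hvpos : volume (Metric.ball (K.e i x') s) ≠ 0 := (Metric.measure_ball_pos volume _ hs).ne'
    have hvfin : volume (Metric.ball (K.e i x') s) ≠ ⊤ := measure_ball_lt_top.ne
    obtain ⟨y, hy, hyle⟩ := exists_le_setAverage hvpos hvfin (hint.mono_set hs1)
    refine ⟨(K.e i).symm y, (hsub hy).1, hyle.trans ?_⟩
    rw [setAverage_eq, smul_eq_mul, div_eq_inv_mul]
    refine mul_le_mul_of_nonneg_left ?_ (by positivity)
    refine le_trans ?_ (hB j)
    refine setIntegral_mono_set hint ?_ (LE.le.eventuallyLE hs1)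
    exact Eventually.of_forall fun y => by simpa using hneg j _
  have hGclosed : IsClosed G := by
    rw [← closure_subset_iff_isClosed]
    intro x hx W hW
    obtain ⟨V, hVW, hVo, hxV⟩ := mem_nhds_iff.1 hW
    obtain ⟨x', hx'V, hx'G⟩ := mem_closure_iff.1 hx V hVo hxV
    obtain ⟨C, hC⟩ := hx'G V (hVo.mem_nhds hx'V)
    exact ⟨C, fun j => (hC j).imp fun y hy => ⟨hVW hy.1, hy.2⟩⟩
  have hGuniv : G = univ := by
    refine IsClopen.eq_univ ⟨hGclosed, hGopen⟩ ⟨x0, ?_⟩
    intro W hW
    exact ⟨-c, fun j => ⟨x0, mem_of_mem_nhds hW, by have := hx0 j; linarith⟩⟩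
  -- choose good balls
  have hall : ∀ x : X, ∃ (i : Fin K.n) (r B : ℝ), 0 < r ∧ x ∈ (K.e i).source ∧
      Metric.closedBall (K.e i x) (3 * r) ⊆ (K.e i).target ∧
      ∀ j, ∫ y in Metric.ball (K.e i x) r, -f j ((K.e i).symm y) ≤ B := by
    intro x
    obtain ⟨i, r, hr, hxs, hb⟩ := hchart x
    obtain ⟨B, hB⟩ := hGint x (by rw [hGuniv]; trivial) i r hr hxs hb
    exact ⟨i, r, B, hr, hxs, hb, hB⟩
  choose ix rx Bx hrx hxs hbx hBx using hall
  set Wx : X → Set X := fun x => (K.e (ix x)).source ∩ K.e (ix x) ⁻¹' Metric.ball (K.e (ix x) x) (rx x) with hWx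
  have hWopen : ∀ x, IsOpen (Wx x) := fun x =>
    (K.e (ix x)).continuousOn.isOpen_inter_preimage (K.e (ix x)).open_source Metric.isOpen_ball
  obtain ⟨t, ht⟩ := isCompact_univ.elim_finite_subcover Wx hWopen
    (fun x _ => mem_iUnion.2 ⟨x, hxs x, Metric.mem_ball_self (hrx x)⟩)
  -- bound of the density
  have hD : ∀ x, ∃ D : ℝ, ∀ y ∈ Metric.closedBall (K.e (ix x) x) (3 * rx x), |dens (K.ρ (ix x)) (K.ρ (ix x)) y| ≤ D := by
    intro x
    obtain ⟨D, hD⟩ := (isCompact_closedBall (K.e (ix x) x) (3 * rx x)).exists_bound_of_continuousOn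
      ((cont_dens (hTo _) (K.ρ_smooth _)).mono (hbx x))
    exact ⟨D, fun y hy => hD y hy⟩
  choose Dx hDx using hD
  refine ⟨∑ x ∈ t, Dx x * Bx x, fun j => ?_⟩
  have hfm : Measurable (fun x => -f j x) := (hfC j).1.neg.measurable
  have hfb : ∃ Bd : ℝ, ∀ x, |-f j x| ≤ Bd := by
    obtain ⟨Bd, hBd⟩ := isCompact_univ.exists_bound_of_continuousOn ((hfC j).1.neg.continuousOn)
    exact ⟨Bd, fun x => hBd x trivial⟩
  obtain ⟨Bd, hBd⟩ := hfb
  have hmi : ∀ x, Measurable ((Wx x).indicator fun z => -f j z) := fun x => hfm.indicator (hWopen x).measurableSet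
  have hbi : ∀ x z, |(Wx x).indicator (fun z => -f j z) z| ≤ Bd := by
    intro x z
    by_cases hz : z ∈ Wx x
    · rw [indicator_of_mem hz]; exact hBd z
    · rw [indicator_of_notMem hz, abs_zero]; exact (abs_nonneg _).trans (hBd z)
  have hii : ∀ x, Integrable ((Wx x).indicator fun z => -f j z) ν := fun x =>
    Integrable.of_bound (hmi x).aestronglyMeasurable Bd (Eventually.of_forall fun z => hbi x z)
  have hif : Integrable (fun z => -f j z) ν :=
    Integrable.of_bound hfm.aestronglyMeasurable Bd (Eventually.of_forall fun z => hBd z)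
  have hstep : ∫ z, -f j z ∂ν ≤ ∑ x ∈ t, ∫ z, (Wx x).indicator (fun z => -f j z) z ∂ν := by
    rw [← integral_finsetSum _ (fun x _ => hii x)]
    refine integral_mono hif (integrable_finsetSum _ fun x _ => hii x) fun z => ?_
    have hz := ht (mem_univ z)
    rw [mem_iUnion₂] at hz
    obtain ⟨x, hxt, hzx⟩ := hz
    have h0 : ∀ x ∈ t, 0 ≤ (Wx x).indicator (fun z => -f j z) z := fun x _ =>
      indicator_nonneg (fun z _ => by have := hneg j z; linarith) z
    calc -f j z = (Wx x).indicator (fun z => -f j z) z := (indicator_of_mem hzx (fun z => -f j z)).symm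
      _ ≤ ∑ x ∈ t, (Wx x).indicator (fun z => -f j z) z := Finset.single_le_sum (f := fun x => (Wx x).indicator (fun z => -f j z) z) h0 hxt
  refine hstep.trans (Finset.sum_le_sum fun x _ => ?_)
  -- integral over one good set
  obtain ⟨hI, hE⟩ := h2' (ix x) ((Wx x).indicator fun z => -f j z) (hmi x) ⟨Bd, hbi x⟩
    (fun z hz => indicator_of_notMem (fun hzW => hz hzW.1) _)
  rw [hE]
  have hb' : Metric.ball (K.e (ix x) x) (rx x) ⊆ (K.e (ix x)).target :=
    (Metric.ball_subset_closedBall.trans (Metric.closedBall_subset_closedBall (by linarith [hrx x]))).trans (hbx x)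
  have hpt : ∀ y ∈ (K.e (ix x)).target,
      (Wx x).indicator (fun z => -f j z) ((K.e (ix x)).symm y) *
        dens (K.pot (ix x) fun _ => 0) (K.pot (ix x) fun _ => 0) y =
      (Metric.ball (K.e (ix x) x) (rx x)).indicator
        (fun y => -f j ((K.e (ix x)).symm y) * dens (K.ρ (ix x)) (K.ρ (ix x)) y) y := by
    intro y hy
    rw [hpot0]
    by_cases hyb : y ∈ Metric.ball (K.e (ix x) x) (rx x)
    · rw [indicator_of_mem hyb, indicator_of_mem]
      exact ⟨(K.e (ix x)).map_target hy, by rw [mem_preimage, (K.e (ix x)).right_inv hy]; exact hyb⟩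
    · rw [indicator_of_notMem hyb, indicator_of_notMem, zero_mul]
      rintro ⟨-, h⟩
      rw [mem_preimage, (K.e (ix x)).right_inv hy] at h
      exact hyb h
  rw [setIntegral_congr_fun (hTo (ix x)).measurableSet hpt, setIntegral_indicator measurableSet_ball,
    inter_eq_self_of_subset_right hb']
  have hint : IntegrableOn (fun y => -f j ((K.e (ix x)).symm y)) (Metric.ball (K.e (ix x) x) (rx x)) := by
    have hb'' : Metric.closedBall (K.e (ix x) x) (rx x) ⊆ (K.e (ix x)).target :=
      (Metric.closedBall_subset_closedBall (by linarith [hrx x])).trans (hbx x)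
    exact (((hlc (ix x) j).neg.mono hb'').integrableOn_compact (isCompact_closedBall _ _)).mono_set
      Metric.ball_subset_closedBall
  have hint2 : IntegrableOn (fun y => -f j ((K.e (ix x)).symm y) * dens (K.ρ (ix x)) (K.ρ (ix x)) y)
      (Metric.ball (K.e (ix x) x) (rx x)) := by
    have hb'' : Metric.closedBall (K.e (ix x) x) (rx x) ⊆ (K.e (ix x)).target :=
      (Metric.closedBall_subset_closedBall (by linarith [hrx x])).trans (hbx x)
    exact ((((hlc (ix x) j).neg.mul (cont_dens (hTo _) (K.ρ_smooth _))).mono hb'').integrableOn_compact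
      (isCompact_closedBall _ _)).mono_set Metric.ball_subset_closedBall
  have hD0 : 0 ≤ Dx x := (abs_nonneg _).trans (hDx x _ (Metric.mem_closedBall_self (by linarith [hrx x])))
  calc ∫ y in Metric.ball (K.e (ix x) x) (rx x), -f j ((K.e (ix x)).symm y) * dens (K.ρ (ix x)) (K.ρ (ix x)) y
      ≤ ∫ y in Metric.ball (K.e (ix x) x) (rx x), Dx x * (-f j ((K.e (ix x)).symm y)) := by
        refine setIntegral_mono_on hint2 (hint.const_mul _) measurableSet_ball fun y hy => ?_
        have hy3 : y ∈ Metric.closedBall (K.e (ix x) x) (3 * rx x) :=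
          (Metric.closedBall_subset_closedBall (by linarith [hrx x])) (Metric.ball_subset_closedBall hy)
        have hd := (le_abs_self _).trans (hDx x y hy3)
        have hn : 0 ≤ -f j ((K.e (ix x)).symm y) := by have := hneg j ((K.e (ix x)).symm y); linarith
        rw [mul_comm (Dx x)]
        exact mul_le_mul_of_nonneg_left hd hn
    _ = Dx x * ∫ y in Metric.ball (K.e (ix x) x) (rx x), -f j ((K.e (ix x)).symm y) := integral_const_mul _ _
    _ ≤ Dx x * Bx x := mul_le_mul_of_nonneg_left (hBx x j) hD0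

end

end MAP
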