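import Pool.Agent.helper3.MA.Z4a

set_option autoImplicit false

open MeasureTheory Set Filter Topology Complex
open scoped ContDiff Real Manifold

namespace MAP
namespace Z4aux

noncomputable section

open DMAProblem (HolCharts tr jac AnticanonicalPair)

/-! ### straightening a smooth curve -/

lemma exists_bihol {U : Set DMAProblem.C2} (hU : IsOpen U) {s : DMAProblem.C2 → ℂ} (hs : ContDiffOn ℂ ∞ s U)
    {y0 : DMAProblem.C2} (hy0 : y0 ∈ U) (hd : fderiv ℂ s y0 ≠ 0) :
    ∃ g : OpenPartialHomeomorph DMAProblem.C2 DMAProblem.C2, g ∈ Gr ∧ y0 ∈ g.source ∧ g.source ⊆ U ∧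
      ∀ y ∈ g.source, (g y).2 = s y := by
  obtain ⟨l, hl⟩ : ∃ l : DMAProblem.C2 →L[ℂ] ℂ,
      l (1, 0) * fderiv ℂ s y0 (0, 1) - l (0, 1) * fderiv ℂ s y0 (1, 0) ≠ 0 := by
    by_contra hcon
    push Not at hcon
    apply hd
    have h1 := hcon (ContinuousLinearMap.fst ℂ ℂ ℂ)
    have h2 := hcon (ContinuousLinearMap.snd ℂ ℂ ℂ)
    simp only [ContinuousLinearMap.coe_fst', ContinuousLinearMap.coe_snd', one_mul, zero_mul, sub_zero, zero_sub,
      neg_eq_zero] at h1 h2
    refine ContinuousLinearMap.ext fun v => ?_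
    have hv : v = v.1 • ((1, 0) : DMAProblem.C2) + v.2 • ((0, 1) : DMAProblem.C2) := by
      ext <;> simp
    rw [hv, map_add, map_smul, map_smul, h1, h2]
    simp
  set G : DMAProblem.C2 → DMAProblem.C2 := fun y => (l y, s y) with hG
  set DG : DMAProblem.C2 → (DMAProblem.C2 →L[ℂ] DMAProblem.C2) := fun y => l.prod (fderiv ℂ s y) with hDG
  have hsd : ∀ y ∈ U, HasFDerivAt s (fderiv ℂ s y) y := fun y hy =>
    ((hs.contDiffAt (hU.mem_nhds hy)).differentiableAt (by norm_num)).hasFDerivAt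
  have hGd : ∀ y ∈ U, HasFDerivAt G (DG y) y := fun y hy => l.hasFDerivAt.prodMk (hsd y hy)
  have hGs : ContDiffOn ℂ ∞ G U := l.contDiff.contDiffOn.prodMk hs
  have hdet : ∀ y, (DG y).det = l (1, 0) * fderiv ℂ s y (0, 1) - l (0, 1) * fderiv ℂ s y (1, 0) := by
    intro y; rw [det_eq]; rfl
  have hdc : ContinuousOn (fun y => (DG y).det) U := by
    simp only [hdet]
    have h1 : ContinuousOn (fderiv ℂ s) U := by
      have := hs.fderiv_of_isOpen (m := 0) hU (by norm_cast)
      exact this.continuousOn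
    exact (continuousOn_const.mul (h1.clm_apply continuousOn_const)).sub
      (continuousOn_const.mul (h1.clm_apply continuousOn_const))
  set V : Set DMAProblem.C2 := U ∩ (fun y => (DG y).det) ⁻¹' {z | z ≠ 0} with hV
  have hVo : IsOpen V := hdc.isOpen_inter_preimage hU isOpen_ne
  have hy0V : y0 ∈ V := ⟨hy0, by rw [mem_preimage, mem_ofPred_eq, hdet]; exact hl⟩
  have heq : ∀ y ∈ V, ∃ E : DMAProblem.C2 ≃L[ℂ] DMAProblem.C2, HasFDerivAt G (E : DMAProblem.C2 →L[ℂ] DMAProblem.C2) y := by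
    intro y hy
    refine ⟨(DG y).toContinuousLinearEquivOfDetNeZero hy.2, ?_⟩
    rw [ContinuousLinearMap.coe_toContinuousLinearEquivOfDetNeZero]
    exact hGd y hy.1
  obtain ⟨E0, hE0⟩ := heq y0 hy0V
  have hGa : ContDiffAt ℂ ∞ G y0 := hGs.contDiffAt (hU.mem_nhds hy0)
  have hn : (∞ : WithTop ℕ∞) ≠ 0 := by norm_num
  set g0 := hGa.toOpenPartialHomeomorph G hE0 hn with hg0
  have hg0G : ∀ y, g0 y = G y := fun y => rfl
  have hy0s : y0 ∈ g0.source := hGa.mem_toOpenPartialHomeomorph_source hE0 hn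
  set g := g0.restrOpen V hVo with hg
  have hgs : g.source = g0.source ∩ V := rfl
  have hgG : ∀ y, g y = G y := fun y => rfl
  refine ⟨g, ?_, ⟨hy0s, hy0V⟩, fun y hy => hy.2.1, fun y _ => rfl⟩
  rw [mem_gr]
  constructor
  · exact (hGs.mono (fun y hy => hy.2.1)).congr fun y _ => hgG y
  · intro a ha
    have hb : g.symm a ∈ V := (g.map_target ha).2
    obtain ⟨E, hE⟩ := heq _ hb
    have h1 : ContDiffAt ℂ ∞ g (g.symm a) := hGs.contDiffAt (hU.mem_nhds hb.1)
    exact (g.contDiffAt_symm ha hE h1).contDiffWithinAt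

variable {X : Type} [TopologicalSpace X] [ChartedSpace DMAProblem.C2 X]

/-! ### the function `|sec|² vol` -/

lemma jac_ne (P : AnticanonicalPair X) {e e' : OpenPartialHomeomorph X DMAProblem.C2} (he : e ∈ HolCharts X)
    (he' : e' ∈ HolCharts X) {y : DMAProblem.C2} (hy : y ∈ e.target) (hy' : e.symm y ∈ e'.source) :
    jac e e' y ≠ 0 := by
  intro h0
  have h1 := P.vol_change e he e' he' y hy hy'
  have h2 := P.vol_pos e he y hy
  rw [h0, norm_zero] at h1
  simp only [ne_eq, OfNat.ofNat_ne_zero, not_false_eq_true, zero_pow, zero_mul] at h1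
  linarith

lemma inv_eq (P : AnticanonicalPair X) {e e' : OpenPartialHomeomorph X DMAProblem.C2} (he : e ∈ HolCharts X)
    (he' : e' ∈ HolCharts X) {x : X} (hx : x ∈ e.source) (hx' : x ∈ e'.source) :
    ‖P.sec e (e x)‖ ^ 2 * P.vol e (e x) = ‖P.sec e' (e' x)‖ ^ 2 * P.vol e' (e' x) := by
  have hy : e x ∈ e.target := e.map_source hx
  have hs : e.symm (e x) = x := e.left_inv hx
  have h1 := P.vol_change e he e' he' (e x) hy (by rw [hs]; exact hx')
  have h2 := P.sec_change e he e' he' (e x) hy (by rw [hs]; exact hx')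
  have h3 : tr e e' (e x) = e' x := by unfold tr; rw [hs]
  rw [h3] at h1 h2
  rw [h1, h2, norm_mul]
  ring

variable [IsManifold (modelWithCornersSelf ℂ DMAProblem.C2) ∞ X]

lemma chart_hol (x : X) : chartAt DMAProblem.C2 x ∈ HolCharts X := IsManifold.chart_mem_maximalAtlas x

/-- `|sec|² vol` -/
def S0 (P : AnticanonicalPair X) (x : X) : ℝ :=
  ‖P.sec (chartAt DMAProblem.C2 x) (chartAt DMAProblem.C2 x x)‖ ^ 2 *
    P.vol (chartAt DMAProblem.C2 x) (chartAt DMAProblem.C2 x x)

lemma S0_eq (P : AnticanonicalPair X) {e : OpenPartialHomeomorph X DMAProblem.C2} (he : e ∈ HolCharts X) {x : X}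
    (hx : x ∈ e.source) : S0 P x = ‖P.sec e (e x)‖ ^ 2 * P.vol e (e x) :=
  inv_eq P (chart_hol x) he (mem_chart_source _ x) hx

lemma S0_eq' (P : AnticanonicalPair X) {e : OpenPartialHomeomorph X DMAProblem.C2} (he : e ∈ HolCharts X)
    {y : DMAProblem.C2} (hy : y ∈ e.target) : S0 P (e.symm y) = ‖P.sec e y‖ ^ 2 * P.vol e y := by
  rw [S0_eq P he (e.map_target hy), e.right_inv hy]

lemma S0_cont (P : AnticanonicalPair X) : Continuous (S0 P) := by
  rw [continuous_iff_continuousAt]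
  intro x
  set e := chartAt DMAProblem.C2 x with hedef
  have he : e ∈ HolCharts X := chart_hol x
  have hx : x ∈ e.source := mem_chart_source _ x
  have h1 : ContinuousOn (fun z => ‖P.sec e (e z)‖ ^ 2 * P.vol e (e z)) e.source :=
    (((P.sec_hol e he).continuousOn.comp e.continuousOn e.mapsTo).norm.pow 2).mul
      ((P.vol_smooth e he).continuousOn.comp e.continuousOn e.mapsTo)
  have h2 : ContinuousOn (S0 P) e.source := h1.congr fun z hz => S0_eq P he hz
  exact h2.continuousAt (e.open_source.mem_nhds hx)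

lemma pot_smooth (P : AnticanonicalPair X) {e : OpenPartialHomeomorph X DMAProblem.C2} (he : e ∈ HolCharts X) :
    ContDiffOn ℝ ∞ (P.pot e) e.target := by
  have h1 := (P.vol_smooth e he).log fun y hy => (P.vol_pos e he y hy).ne'
  exact contDiffOn_const.mul h1

/-- potentials differing from `pot` by `c log|h| + d` -/
lemma rho_ok (P : AnticanonicalPair X) {e : OpenPartialHomeomorph X DMAProblem.C2} (he : e ∈ HolCharts X)
    {h : DMAProblem.C2 → ℂ} (hh : ContDiffOn ℂ ∞ h e.target) (h0 : ∀ y ∈ e.target, h y ≠ 0) (c d : ℝ) :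
    ContDiffOn ℝ ∞ (fun y => P.pot e y + (c * Real.log ‖h y‖ + d)) e.target ∧
    ∀ y ∈ e.target, ∀ ξ : DMAProblem.C2,
      lap (fun y => P.pot e y + (c * Real.log ‖h y‖ + d)) y ξ = lap (P.pot e) y ξ := by
  have hp := pot_smooth P he
  have hl := smooth_log hh h0
  have h2 : (2 : WithTop ℕ∞) ≤ ∞ := by norm_cast
  refine ⟨hp.add ((contDiffOn_const.mul hl).add contDiffOn_const), fun y hy ξ => ?_⟩
  have hn := e.open_target.mem_nhds hy
  have hpa : ContDiffAt ℝ 2 (P.pot e) y := (hp.contDiffAt hn).of_le h2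
  have hla : ContDiffAt ℝ 2 (fun y => Real.log ‖h y‖) y := (hl.contDiffAt hn).of_le h2
  have hlc : ContDiffAt ℝ 2 (fun y => c * Real.log ‖h y‖) y := contDiffAt_const.mul hla
  have hld : ContDiffAt ℝ 2 (fun y => c * Real.log ‖h y‖ + d) y := hlc.add contDiffAt_const
  rw [lap_add hpa hld, lap_add hlc contDiffAt_const, lap_const_mul c hla,
    lap_log ((hh.contDiffAt hn).of_le h2) (h0 y hy), lap_const]
  ring

/-- the local charts and potentials -/
lemma exists_local (P : AnticanonicalPair X) {t : ℝ} (ht : 0 < t) (x : X) :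
    ∃ (e : OpenPartialHomeomorph X DMAProblem.C2) (ρ : DMAProblem.C2 → ℝ), e ∈ HolCharts X ∧ x ∈ e.source ∧
      ContDiffOn ℝ ∞ ρ e.target ∧ (∀ y ∈ e.target, ∀ ξ : DMAProblem.C2, lap ρ y ξ = lap (P.pot e) y ξ) ∧
      ((∀ y ∈ e.target, t * S0 P (e.symm y) = Real.exp (-2 * ρ y)) ∨
        (∀ y ∈ e.target, t * S0 P (e.symm y) = ‖y.2‖ ^ 2 * Real.exp (-2 * ρ y))) := by
  set e0 := chartAt DMAProblem.C2 x with he0def
  have he0 : e0 ∈ HolCharts X := chart_hol x
  have hx0 : x ∈ e0.source := mem_chart_source _ x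
  by_cases h : P.sec e0 (e0 x) = 0
  · -- a point of the curve
    obtain ⟨g, hg, hgx, hgU, hgs⟩ := exists_bihol e0.open_target (P.sec_hol e0 he0) (e0.map_source hx0)
      (P.sec_smooth e0 he0 _ (e0.map_source hx0) h)
    set e := e0.trans g with hedef
    have he : e ∈ HolCharts X := trans_mem he0 hg
    have hes : ∀ z ∈ e.source, z ∈ e0.source ∧ e0 z ∈ g.source := by
      intro z hz
      rw [hedef, OpenPartialHomeomorph.trans_source] at hz
      exact hz
    have hxe : x ∈ e.source := by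
      rw [hedef, OpenPartialHomeomorph.trans_source]
      exact ⟨hx0, hgx⟩
    have hsub : e.target ⊆ {y | y ∈ e.target ∧ e.symm y ∈ e0.source} := fun y hy =>
      ⟨hy, (hes _ (e.map_target hy)).1⟩
    have hj : ContDiffOn ℂ ∞ (jac e e0) e.target := (jac_hol he he0).mono hsub
    have hj0 : ∀ y ∈ e.target, jac e e0 y ≠ 0 := fun y hy => jac_ne P he he0 hy (hsub hy).2
    obtain ⟨hr1, hr2⟩ := rho_ok P he hj hj0 1 (-(1 / 2) * Real.log t)
    refine ⟨e, _, he, hxe, hr1, hr2, Or.inr fun y hy => ?_⟩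
    have hz := hes _ (e.map_target hy)
    have h1 : y.2 = P.sec e0 (e0 (e.symm y)) := by
      rw [← hgs _ hz.2]
      have : g (e0 (e.symm y)) = e (e.symm y) := rfl
      rw [this, e.right_inv hy]
    have h2 : S0 P (e.symm y) = ‖y.2‖ ^ 2 * P.vol e0 (tr e e0 y) := by
      rw [S0_eq P he0 hz.1, h1]; rfl
    have h3 := P.vol_change e he e0 he0 y hy hz.1
    have h4 : 0 < P.vol e y := P.vol_pos e he y hy
    have h5 : 0 < ‖jac e e0 y‖ := norm_pos_iff.2 (hj0 y hy)
    have h6 : P.vol e0 (tr e e0 y) = P.vol e y / ‖jac e e0 y‖ ^ 2 := by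
      rw [h3]; field_simp
    have h7 : Real.exp (-2 * (P.pot e y + (1 * Real.log ‖jac e e0 y‖ + -(1 / 2) * Real.log t))) =
        P.vol e y / ‖jac e e0 y‖ ^ 2 * t := by
      have : -2 * (P.pot e y + (1 * Real.log ‖jac e e0 y‖ + -(1 / 2) * Real.log t)) =
          Real.log (P.vol e y) - 2 * Real.log ‖jac e e0 y‖ + Real.log t := by
        unfold AnticanonicalPair.pot; ring
      rw [this, Real.exp_add, Real.exp_sub, Real.exp_log h4, Real.exp_log ht, two_mul, Real.exp_add, Real.exp_log h5]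
      ring
    rw [h7, h2, h6]
    ring
  · -- off the curve
    set V : Set DMAProblem.C2 := e0.target ∩ (P.sec e0) ⁻¹' {z | z ≠ 0} with hV
    have hVo : IsOpen V := (P.sec_hol e0 he0).continuousOn.isOpen_inter_preimage e0.open_target isOpen_ne
    set e := e0.trans (OpenPartialHomeomorph.ofSet V hVo) with hedef
    have he : e ∈ HolCharts X := trans_mem he0 (ofSet_mem_contDiffGroupoid hVo)
    have hes : ∀ z ∈ e.source, z ∈ e0.source ∧ e0 z ∈ V := by
      intro z hz
      rw [hedef, OpenPartialHomeomorph.trans_source] at hz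
      exact hz
    have hxe : x ∈ e.source := by
      rw [hedef, OpenPartialHomeomorph.trans_source]
      exact ⟨hx0, e0.map_source hx0, h⟩
    have hs0 : ∀ y ∈ e.target, P.sec e y ≠ 0 := by
      intro y hy h0
      have hz := hes _ (e.map_target hy)
      have h1 := S0_eq' P he hy
      rw [h0, norm_zero] at h1
      have h2 := S0_eq P he0 hz.1
      have h3 : 0 < P.vol e0 (e0 (e.symm y)) := P.vol_pos e0 he0 _ (e0.map_source hz.1)
      have h4 : 0 < ‖P.sec e0 (e0 (e.symm y))‖ := norm_pos_iff.2 hz.2.2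
      rw [h2] at h1
      have : 0 < ‖P.sec e0 (e0 (e.symm y))‖ ^ 2 * P.vol e0 (e0 (e.symm y)) := by positivity
      rw [h1] at this
      simp at this
    obtain ⟨hr1, hr2⟩ := rho_ok P he (P.sec_hol e he) hs0 (-1) (-(1 / 2) * Real.log t)
    refine ⟨e, _, he, hxe, hr1, hr2, Or.inl fun y hy => ?_⟩
    have h4 : 0 < P.vol e y := P.vol_pos e he y hy
    have h5 : 0 < ‖P.sec e y‖ := norm_pos_iff.2 (hs0 y hy)
    have h7 : Real.exp (-2 * (P.pot e y + (-1 * Real.log ‖P.sec e y‖ + -(1 / 2) * Real.log t))) =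
        P.vol e y * ‖P.sec e y‖ ^ 2 * t := by
      have : -2 * (P.pot e y + (-1 * Real.log ‖P.sec e y‖ + -(1 / 2) * Real.log t)) =
          Real.log (P.vol e y) + 2 * Real.log ‖P.sec e y‖ + Real.log t := by
        unfold AnticanonicalPair.pot; ring
      rw [this, Real.exp_add, Real.exp_add, Real.exp_log h4, Real.exp_log ht, two_mul, Real.exp_add, Real.exp_log h5]
      ring
    rw [h7, S0_eq' P he hy]
    ring

/-- compatibility of the potentials -/
lemma compat_aux (P : AnticanonicalPair X) {e e' : OpenPartialHomeomorph X DMAProblem.C2} (he : e ∈ HolCharts X)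
    (he' : e' ∈ HolCharts X) {ρ ρ' : DMAProblem.C2 → ℝ} (hρ's : ContDiffOn ℝ ∞ ρ' e'.target)
    (hρ : ∀ y ∈ e.target, ∀ ξ : DMAProblem.C2, lap ρ y ξ = lap (P.pot e) y ξ)
    (hρ' : ∀ y ∈ e'.target, ∀ ξ : DMAProblem.C2, lap ρ' y ξ = lap (P.pot e') y ξ) {y : DMAProblem.C2}
    (hy : y ∈ e.target) (hy' : e.symm y ∈ e'.source) (ξ : DMAProblem.C2) :
    lap (fun z => ρ' (e' (e.symm z))) y ξ = lap ρ y ξ := by
  have h2 : (2 : WithTop ℕ∞) ≤ ∞ := by norm_cast
  set V : Set DMAProblem.C2 := {y | y ∈ e.target ∧ e.symm y ∈ e'.source} with hV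
  have hVo : IsOpen V := open_ov e e'
  have hyV : y ∈ V := ⟨hy, hy'⟩
  have hF : ContDiffOn ℂ 2 (tr e e') V := (hol_tr he he').of_le h2
  have hm : MapsTo (tr e e') V e'.target := fun z hz => e'.map_source hz.2
  have hp' := pot_smooth P he'
  have e1 : lap (fun z => ρ' (tr e e' z)) y ξ = lap ρ' (tr e e' y) (fderiv ℂ (tr e e') y ξ) :=
    A6_part1 e'.target V (tr e e') ρ' e'.open_target hVo hF hm (hρ's.of_le h2) y hyV ξ
  have e2 : lap (fun z => P.pot e' (tr e e' z)) y ξ = lap (P.pot e') (tr e e' y) (fderiv ℂ (tr e e') y ξ) :=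
    A6_part1 e'.target V (tr e e') (P.pot e') e'.open_target hVo hF hm (hp'.of_le h2) y hyV ξ
  have e3 : lap (fun z => ρ' (e' (e.symm z))) y ξ = lap (fun z => P.pot e' (tr e e' z)) y ξ := by
    rw [e2, ← hρ' _ (hm hyV), ← e1]; rfl
  have hj : ContDiffAt ℂ 2 (jac e e') y := ((jac_hol he he').contDiffAt (hVo.mem_nhds hyV)).of_le h2
  have hj0 : jac e e' y ≠ 0 := jac_ne P he he' hy hy'
  have hev : (fun z => P.pot e' (tr e e' z)) =ᶠ[𝓝 y] fun z => P.pot e z + Real.log ‖jac e e' z‖ := by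
    filter_upwards [hVo.mem_nhds hyV] with z hz
    have hv := P.vol_change e he e' he' z hz.1 hz.2
    have hv0 : 0 < P.vol e' (tr e e' z) := P.vol_pos e' he' _ (hm hz)
    have hj1 : 0 < ‖jac e e' z‖ := norm_pos_iff.2 (jac_ne P he he' hz.1 hz.2)
    unfold AnticanonicalPair.pot
    rw [hv, Real.log_mul (by positivity) hv0.ne', Real.log_pow]
    push_cast
    ring
  have hpa : ContDiffAt ℝ 2 (P.pot e) y := ((pot_smooth P he).contDiffAt (e.open_target.mem_nhds hy)).of_le h2
  have hla : ContDiffAt ℝ 2 (fun z => Real.log ‖jac e e' z‖) y :=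
    ((smooth_log (jac_hol he he') fun z hz => jac_ne P he he' hz.1 hz.2).contDiffAt (hVo.mem_nhds hyV)).of_le h2
  rw [e3, lap_congr hev, lap_add hpa hla, lap_log hj hj0, add_zero, hρ y hy]

lemma continuous_nsq : Continuous nsq := by unfold nsq; fun_prop

lemma cbal_sub {U : Set C2} (hU : IsOpen U) {c : C2} (hc : c ∈ U) : ∃ R : ℝ, 0 < R ∧ cbal c R ⊆ U := by
  obtain ⟨ε, hε, hb⟩ := Metric.isOpen_iff.1 hU c hc
  refine ⟨ε / 2, by positivity, fun y hy => hb ?_⟩
  have h1 : ‖(y - c).1‖ ^ 2 + ‖(y - c).2‖ ^ 2 ≤ (ε / 2) ^ 2 := hy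
  have h2 : ‖(y - c).1‖ ≤ ε / 2 := abs_le_of_sq_le_sq' (by nlinarith [sq_nonneg ‖(y - c).2‖]) (by positivity) |>.2
  have h3 : ‖(y - c).2‖ ≤ ε / 2 := abs_le_of_sq_le_sq' (by nlinarith [sq_nonneg ‖(y - c).1‖]) (by positivity) |>.2
  rw [Metric.mem_ball, dist_eq_norm, Prod.norm_def]
  exact lt_of_le_of_lt (max_le h2 h3) (by linarith)

end

end Z4aux

open Z4aux

theorem Z4 : Z4_stmt := by
  intro X _ _ _ _ _ P
  -- the scaling constant
  obtain ⟨t, ht, htle⟩ : ∃ t : ℝ, 0 < t ∧ ∀ x, t * S0 P x ≤ Real.exp (-2) := by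
    obtain ⟨M, hM⟩ := isCompact_univ.exists_bound_of_continuousOn (S0_cont P).continuousOn
    refine ⟨Real.exp (-2) / (|M| + 1), by positivity, fun x => ?_⟩
    have h1 : S0 P x ≤ |M| + 1 := by
      have h2 := (le_abs_self _).trans (hM x trivial)
      have h3 := le_abs_self M
      linarith
    calc Real.exp (-2) / (|M| + 1) * S0 P x ≤ Real.exp (-2) / (|M| + 1) * (|M| + 1) := by gcongr
      _ = Real.exp (-2) := by field_simp
  choose e ρ he hx hρs hρl hρS using exists_local P ht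
  choose R hR hRs using fun x : X => cbal_sub (e x).open_target ((e x).map_source (hx x))
  set W : X → Set X := fun x => (e x).source ∩ (e x) ⁻¹' bal (e x x) (R x / 2) with hW
  have hbo : ∀ (c : C2) (r : ℝ), IsOpen (bal c r) := fun c r =>
    isOpen_lt (continuous_nsq.comp (continuous_id.sub continuous_const)) continuous_const
  have hWo : ∀ x, IsOpen (W x) := fun x => (e x).continuousOn.isOpen_inter_preimage (e x).open_source (hbo _ _)
  obtain ⟨T, hT⟩ := isCompact_univ.elim_finite_subcover W hWo (fun x _ => mem_iUnion.2 ⟨x, hx x, by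
    change nsq (e x x - e x x) < (R x / 2) ^ 2
    rw [sub_self]
    have h1 : nsq (0 : C2) = 0 := by simp [nsq]
    rw [h1]
    have := hR x
    positivity⟩)
  let ix : Fin T.card → X := fun i => (T.equivFin.symm i : X)
  let K : KSD X :=
    { n := T.card
      e := fun i => e (ix i)
      ρ := fun i => ρ (ix i)
      c := fun i => e (ix i) (ix i)
      R := fun i => R (ix i)
      R_pos := fun i => hR _
      ball_sub := fun i => hRs _
      cover := by
        intro x
        have hx' := hT (mem_univ x)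
        rw [mem_iUnion₂] at hx'
        obtain ⟨z, hz, hxz⟩ := hx'
        refine ⟨T.equivFin ⟨z, hz⟩, ?_⟩
        have : ix (T.equivFin ⟨z, hz⟩) = z := by simp [ix]
        rw [this]
        exact hxz
      hol := fun i j => hol_tr (he _) (he _)
      ρ_smooth := fun i => hρs _
      ρ_pos := by
        intro i y hy ξ hξ
        rw [hρl _ y hy ξ]
        exact P.ricci_pos _ (he _) y hy ξ hξ
      compat := by
        intro i j y hy hy' ξ
        exact compat_aux P (he _) (he _) (hρs _) (hρl _) (hρl _) hy hy' ξ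
      S := fun x => t * S0 P x
      S_loc := fun i => hρS _
      S_le := htle }
  have hS0 : ∀ x : X, ∀ e' ∈ DMAProblem.HolCharts X, x ∈ e'.source → (t * S0 P x = 0 ↔ P.sec e' (e' x) = 0) := by
    intro x e' he' hxe
    rw [S0_eq P he' hxe]
    have hv : P.vol e' (e' x) ≠ 0 := (P.vol_pos e' he' _ (e'.map_source hxe)).ne'
    constructor
    · intro h
      have h1 : ‖P.sec e' (e' x)‖ ^ 2 = 0 := by
        rcases mul_eq_zero.1 h with h | h
        · exact absurd h ht.ne'
        · rcases mul_eq_zero.1 h with h | h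
          · exact h
          · exact absurd h hv
      exact norm_eq_zero.1 (pow_eq_zero_iff (by norm_num) |>.1 h1)
    · intro h
      rw [h]; simp
  refine ⟨K, fun i => he _, fun i y hy ξ => hρl _ y hy ξ, fun x => ?_, fun i hi y hy => ?_⟩
  · change t * S0 P x = 0 ↔ _
    constructor
    · intro h
      exact ⟨_, chart_hol x, mem_chart_source _ x, (hS0 x _ (chart_hol x) (mem_chart_source _ x)).1 h⟩
    · rintro ⟨e', he', hxe, hs⟩
      exact (hS0 x e' he' hxe).2 hs
  · have h1 : t * S0 P ((e (ix i)).symm y) = ‖y.2‖ ^ 2 * Real.exp (-2 * ρ (ix i) y) := hi y hy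
    have h2 := hS0 ((e (ix i)).symm y) (e (ix i)) (he _) ((e (ix i)).map_target hy)
    rw [(e (ix i)).right_inv hy] at h2
    change P.sec (e (ix i)) y = 0 ↔ y.2 = 0
    rw [← h2, h1]
    constructor
    · intro h
      rcases mul_eq_zero.1 h with h | h
      · exact norm_eq_zero.1 (pow_eq_zero_iff (by norm_num) |>.1 h)
      · exact absurd h (Real.exp_pos _).ne'
    · intro h
      rw [h]; simp

end MAP
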