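import Pool.Agent.helper50.MA.Spec3
import Pool.Agent.helper3.MA.A6

set_option autoImplicit false

open MeasureTheory Set Filter Topology Complex
open scoped ContDiff Real Manifold

namespace MAP
namespace Z4aux

noncomputable section

open DMAProblem (HolCharts tr jac AnticanonicalPair)

variable {X : Type} [TopologicalSpace X] [ChartedSpace DMAProblem.C2 X]

/-! ### groupoid facts -/

/-- the groupoid of holomorphic changes of coordinates -/
abbrev Gr : StructureGroupoid DMAProblem.C2 := contDiffGroupoid ∞ (modelWithCornersSelf ℂ DMAProblem.C2)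

lemma mem_gr (g : OpenPartialHomeomorph DMAProblem.C2 DMAProblem.C2) :
    g ∈ Gr ↔ ContDiffOn ℂ ∞ g g.source ∧ ContDiffOn ℂ ∞ g.symm g.target := by
  change g ∈ Pregroupoid.groupoid (contDiffPregroupoid ∞ (modelWithCornersSelf ℂ DMAProblem.C2)) ↔ _
  rw [mem_groupoid_of_pregroupoid]
  simp [contDiffPregroupoid]

lemma trans_mem {e : OpenPartialHomeomorph X DMAProblem.C2} (he : e ∈ HolCharts X)
    {g : OpenPartialHomeomorph DMAProblem.C2 DMAProblem.C2} (hg : g ∈ Gr) : e.trans g ∈ HolCharts X := by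
  have he' : e ∈ Gr.maximalAtlas X := he
  have : e.trans g ∈ Gr.maximalAtlas X := by
    rw [mem_maximalAtlas_iff] at he' ⊢
    intro e' he''
    obtain ⟨h1, h2⟩ := he' e' he''
    constructor
    · have : (e.trans g).symm.trans e' = g.symm.trans (e.symm.trans e') := by
        rw [OpenPartialHomeomorph.trans_symm_eq_symm_trans_symm, OpenPartialHomeomorph.trans_assoc]
      rw [this]
      exact Gr.trans (Gr.symm hg) h1
    · rw [← OpenPartialHomeomorph.trans_assoc]
      exact Gr.trans h2 hg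
  exact this

lemma hol_tr {e e' : OpenPartialHomeomorph X DMAProblem.C2} (he : e ∈ HolCharts X) (he' : e' ∈ HolCharts X) :
    ContDiffOn ℂ ∞ (tr e e') {y | y ∈ e.target ∧ e.symm y ∈ e'.source} := by
  have h1 : e ∈ Gr.maximalAtlas X := he
  have h2 : e' ∈ Gr.maximalAtlas X := he'
  have h3 := (mem_gr _).1 (Gr.compatible_of_mem_maximalAtlas h1 h2)
  have h4 := h3.1
  rw [OpenPartialHomeomorph.trans_source] at h4
  exact h4

lemma open_ov (e e' : OpenPartialHomeomorph X DMAProblem.C2) :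
    IsOpen {y | y ∈ e.target ∧ e.symm y ∈ e'.source} :=
  (e.symm.continuousOn).isOpen_inter_preimage e.open_target e'.open_source

/-! ### determinant -/

lemma det_eq (A : DMAProblem.C2 →L[ℂ] DMAProblem.C2) :
    A.det = (A (1, 0)).1 * (A (0, 1)).2 - (A (0, 1)).1 * (A (1, 0)).2 := by
  have h := LinearMap.det_toMatrix (Module.Basis.finTwoProd ℂ) (A : DMAProblem.C2 →ₗ[ℂ] DMAProblem.C2)
  unfold ContinuousLinearMap.det
  rw [← h, Matrix.det_fin_two]
  simp [LinearMap.toMatrix_apply]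

lemma jac_hol {e e' : OpenPartialHomeomorph X DMAProblem.C2} (he : e ∈ HolCharts X) (he' : e' ∈ HolCharts X) :
    ContDiffOn ℂ ∞ (jac e e') {y | y ∈ e.target ∧ e.symm y ∈ e'.source} := by
  have h1 : ContDiffOn ℂ ∞ (fderiv ℂ (tr e e')) {y | y ∈ e.target ∧ e.symm y ∈ e'.source} :=
    (hol_tr he he').fderiv_of_isOpen (open_ov e e') (by norm_cast)
  have h2 : ∀ v : DMAProblem.C2, ContDiffOn ℂ ∞ (fun y => fderiv ℂ (tr e e') y v)
      {y | y ∈ e.target ∧ e.symm y ∈ e'.source} := fun v => h1.clm_apply contDiffOn_const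
  have h3 : jac e e' = fun y => (fderiv ℂ (tr e e') y (1, 0)).1 * (fderiv ℂ (tr e e') y (0, 1)).2 -
      (fderiv ℂ (tr e e') y (0, 1)).1 * (fderiv ℂ (tr e e') y (1, 0)).2 := by
    funext y
    exact det_eq _
  rw [h3]
  exact ((h2 _).fst.mul (h2 _).snd).sub ((h2 _).fst.mul (h2 _).snd)

/-! ### real calculus of `lap` -/

lemma lap_congr {u v : DMAProblem.C2 → ℝ} {y : DMAProblem.C2} (h : u =ᶠ[𝓝 y] v) (ξ : DMAProblem.C2) :
    lap u y ξ = lap v y ξ := by
  have h1 : fderiv ℝ (fderiv ℝ u) y = fderiv ℝ (fderiv ℝ v) y := (h.fderiv (𝕜 := ℝ)).fderiv_eq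
  unfold lap D2
  rw [h1]

lemma diff_fderiv {u : DMAProblem.C2 → ℝ} {y : DMAProblem.C2} (h : ContDiffAt ℝ 2 u y) :
    DifferentiableAt ℝ (fderiv ℝ u) y := by
  have := h.fderiv_right (m := 1) (by norm_num)
  exact this.differentiableAt (by norm_num)

lemma ev_diff {u : DMAProblem.C2 → ℝ} {y : DMAProblem.C2} (h : ContDiffAt ℝ 2 u y) :
    ∀ᶠ z in 𝓝 y, DifferentiableAt ℝ u z := by
  have := h.eventually (by simp)
  filter_upwards [this] with z hz
  exact hz.differentiableAt (by norm_num)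

lemma lap_add {u v : DMAProblem.C2 → ℝ} {y : DMAProblem.C2} (hu : ContDiffAt ℝ 2 u y) (hv : ContDiffAt ℝ 2 v y)
    (ξ : DMAProblem.C2) : lap (fun z => u z + v z) y ξ = lap u y ξ + lap v y ξ := by
  have h1 : fderiv ℝ (fun z => u z + v z) =ᶠ[𝓝 y] fun z => fderiv ℝ u z + fderiv ℝ v z := by
    filter_upwards [ev_diff hu, ev_diff hv] with z hz1 hz2
    exact fderiv_fun_add hz1 hz2
  have h2 : fderiv ℝ (fderiv ℝ (fun z => u z + v z)) y = fderiv ℝ (fderiv ℝ u) y + fderiv ℝ (fderiv ℝ v) y := by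
    rw [h1.fderiv_eq, fderiv_fun_add (diff_fderiv hu) (diff_fderiv hv)]
  unfold lap D2
  rw [h2]
  simp only [add_apply]
  ring

lemma lap_const_mul {u : DMAProblem.C2 → ℝ} {y : DMAProblem.C2} (c : ℝ) (hu : ContDiffAt ℝ 2 u y)
    (ξ : DMAProblem.C2) : lap (fun z => c * u z) y ξ = c * lap u y ξ := by
  have h1 : fderiv ℝ (fun z => c * u z) =ᶠ[𝓝 y] fun z => c • fderiv ℝ u z := by
    filter_upwards [ev_diff hu] with z hz1
    exact fderiv_const_mul hz1 c
  have h2 : fderiv ℝ (fderiv ℝ (fun z => c * u z)) y = c • fderiv ℝ (fderiv ℝ u) y := by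
    rw [h1.fderiv_eq, fderiv_fun_const_smul (diff_fderiv hu)]
  unfold lap D2
  rw [h2]
  simp only [smul_apply, smul_eq_mul]
  ring

lemma lap_const (c : ℝ) (y ξ : DMAProblem.C2) : lap (fun _ => c) y ξ = 0 := by
  have h1 : fderiv ℝ (fun _ : DMAProblem.C2 => c) = fun _ => 0 := by
    funext z; exact fderiv_const_apply c
  unfold lap D2
  rw [h1]
  simp

/-- the real part of a holomorphic function is pluriharmonic -/
lemma lap_re {F : DMAProblem.C2 → ℂ} {y : DMAProblem.C2} (hF : ContDiffAt ℂ 2 F y) (ξ : DMAProblem.C2) :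
    lap (fun z => (F z).re) y ξ = 0 := by
  have hev : ∀ᶠ z in 𝓝 y, DifferentiableAt ℂ F z := by
    have := hF.eventually (by simp)
    filter_upwards [this] with z hz
    exact hz.differentiableAt (by norm_num)
  have hG : DifferentiableAt ℂ (fderiv ℂ F) y := by
    have := hF.fderiv_right (m := 1) (by norm_num)
    exact this.differentiableAt (by norm_num)
  have h1 : fderiv ℝ (fun z => (F z).re) =ᶠ[𝓝 y] fun z => reCLM.comp ((fderiv ℂ F z).restrictScalars ℝ) := by
    filter_upwards [hev] with z hz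
    exact (reCLM.hasFDerivAt.comp z (hz.hasFDerivAt.restrictScalars ℝ)).fderiv
  have hD : DifferentiableAt ℝ (fderiv ℝ (fun z => (F z).re)) y := by
    have h2 : ContDiffAt ℝ 2 (fun z => (F z).re) y := reCLM.contDiff.contDiffAt.comp y (hF.restrict_scalars ℝ)
    exact diff_fderiv h2
  have key : ∀ ξ η : DMAProblem.C2, D2 (fun z => (F z).re) y ξ η = (fderiv ℂ (fderiv ℂ F) y ξ η).re := by
    intro ξ η
    have e1 : D2 (fun z => (F z).re) y ξ η = fderiv ℝ (fun z => fderiv ℝ (fun z => (F z).re) z η) y ξ := by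
      unfold D2
      rw [fderiv_clm_apply hD (differentiableAt_const η)]
      simp
    have e2 : (fun z => fderiv ℝ (fun z => (F z).re) z η) =ᶠ[𝓝 y] fun z => (fderiv ℂ F z η).re := by
      filter_upwards [h1] with z hz
      rw [hz]; rfl
    rw [e1, e2.fderiv_eq]
    have h3 : HasFDerivAt (fun z => fderiv ℂ F z η) ((fderiv ℂ (fderiv ℂ F) y).flip η) y := by
      have := hG.hasFDerivAt.clm_apply (hasFDerivAt_const η y)
      refine this.congr_fderiv ?_
      ext <;> simp
    have h4 : HasFDerivAt (fun z => (fderiv ℂ F z η).re)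
        (reCLM.comp (((fderiv ℂ (fderiv ℂ F) y).flip η).restrictScalars ℝ)) y :=
      reCLM.hasFDerivAt.comp y (h3.restrictScalars ℝ)
    rw [h4.fderiv]
    rfl
  unfold lap
  rw [key, key]
  have h0 : fderiv ℂ (fderiv ℂ F) y (I • ξ) = I • fderiv ℂ (fderiv ℂ F) y ξ := map_smul _ _ _
  have h1 : (I • fderiv ℂ (fderiv ℂ F) y ξ) (I • ξ) = I • (fderiv ℂ (fderiv ℂ F) y ξ (I • ξ)) := rfl
  rw [h0, h1, map_smul, smul_smul, I_mul_I, neg_one_smul]
  simp

/-- `log |h|` is pluriharmonic where `h` is holomorphic without zeros -/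
lemma lap_log {h : DMAProblem.C2 → ℂ} {y : DMAProblem.C2} (hh : ContDiffAt ℂ 2 h y) (h0 : h y ≠ 0) (ξ : DMAProblem.C2) :
    lap (fun z => Real.log ‖h z‖) y ξ = 0 := by
  set F : DMAProblem.C2 → ℂ := fun z => Complex.log (h z / h y) with hF
  have hslit : h y / h y ∈ slitPlane := by rw [div_self h0]; exact one_mem_slitPlane
  have hFc : ContDiffAt ℂ 2 F y := by
    have h1 : ContDiffAt ℂ 2 (fun z => h z / h y) y := hh.div_const _
    exact ((contDiffAt_log hslit).of_le le_top).comp y h1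
  have hev : (fun z => Real.log ‖h z‖) =ᶠ[𝓝 y] fun z => (F z).re + Real.log ‖h y‖ := by
    have hc : ContinuousAt h y := hh.continuousAt
    filter_upwards [hc.eventually_ne h0] with z hz
    rw [hF]
    simp only [Complex.log_re, norm_div]
    rw [Real.log_div (norm_ne_zero_iff.2 hz) (norm_ne_zero_iff.2 h0)]
    ring
  have h2 : ContDiffAt ℝ 2 (fun z => (F z).re) y := reCLM.contDiff.contDiffAt.comp y (hFc.restrict_scalars ℝ)
  rw [lap_congr hev, lap_add h2 contDiffAt_const, lap_re hFc, lap_const, add_zero]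

lemma smooth_log {h : DMAProblem.C2 → ℂ} {U : Set DMAProblem.C2} (hh : ContDiffOn ℂ ∞ h U)
    (h0 : ∀ y ∈ U, h y ≠ 0) : ContDiffOn ℝ ∞ (fun z => Real.log ‖h z‖) U := by
  have h1 : ContDiffOn ℝ ∞ h U := hh.restrict_scalars ℝ
  exact (h1.norm ℝ h0).log fun y hy => norm_ne_zero_iff.2 (h0 y hy)

end

end Z4aux
end MAP
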